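import Pool.Agent.T2H19.HD.FIN
import Pool.Agent.T2H19.HD.T_SUB1
import Pool.Agent.T2H19.HD.T_SUBN
import Pool.Agent.T2H19.HD.T_ABS
import Pool.Agent.T2H19.HD.T_GGB
import Pool.Agent.T2H19.HD.T_TOR
import Pool.Agent.T2H19.HD.T_MUA
import Pool.Agent.T2H19.HD.T_MUB
import Pool.Agent.T2H19.HD.T_DDL
import Pool.Agent.T2H19.HD.T_ADD
import Pool.Agent.T2H19.HD.T_SIG

/-!
# The inequality of MP_ca4620_an for all coefficients with completely multiplicative phases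

There is `C > 0` such that for every Dirichlet polynomial with coefficients `a_k`, mean absolute value `M(f)`, and every
completely multiplicative unimodular `χ`
`C (|a_1| + |∑_{k ≥ 2} χ(k) a_k / (√k ln k)|) ≤ M(f)`.
So the inequality of Q1 holds whenever `a_k = χ(k) |a_k|` for `k ≥ 2`, in particular when `a_k ≥ 0`.

Parts were formalized by the team (see the imported files); proof and assembly by helper19.
-/

set_option autoImplicit false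

open Filter Topology MeasureTheory

namespace Pool.Agent.Results.MP_ca4620_an.MultiplicativePhases

/-- `χ` is completely multiplicative and unimodular (on the positive integers). -/
def IsPhase (χ : ℕ → ℂ) : Prop :=
  χ 1 = 1 ∧ (∀ k : ℕ, 1 ≤ k → ‖χ k‖ = 1) ∧ ∀ m n : ℕ, 1 ≤ m → 1 ≤ n → χ (m * n) = χ m * χ n

theorem result :
    ∃ C : ℝ, 0 < C ∧ ∀ (N : ℕ), 1 ≤ N → ∀ (a : ℕ → ℂ), ∃ L : ℝ,
      Tendsto
        (fun T : ℝ => (1 / T) * ∫ t in (-T / 2)..(T / 2),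
          ‖∑ k ∈ Finset.Icc 1 N, a k / ((k : ℂ) ^ (2 * (Real.pi : ℂ) * Complex.I * (t : ℂ)))‖)
        atTop (𝓝 L) ∧
      (∀ χ : ℕ → ℂ, IsPhase χ →
        C * (‖a 1‖ + ‖∑ k ∈ Finset.Icc 2 N, χ k * a k / ((Real.sqrt k * Real.log k : ℝ) : ℂ)‖) ≤ L) ∧
      (∀ χ : ℕ → ℂ, IsPhase χ → (∀ k ∈ Finset.Icc 2 N, a k = χ k * (‖a k‖ : ℂ)) →
        C * (‖a 1‖ + ∑ k ∈ Finset.Icc 2 N, ‖a k‖ / (Real.sqrt k * Real.log k)) ≤ L) := by
  obtain ⟨C, hC, h⟩ := Pool.Agent.T2H19.HD.Fin.main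
    (Pool.Agent.T2H19.HD.T_ABS (Pool.Agent.T2H19.HD.T_SUBN Pool.Agent.T2H19.HD.T_SUB1))
    Pool.Agent.T2H19.HD.T_GGB
    (Pool.Agent.T2H19.HD.T_ADD Pool.Agent.T2H19.HD.T_MUA Pool.Agent.T2H19.HD.T_MUB Pool.Agent.T2H19.HD.T_DDL)
    Pool.Agent.T2H19.HD.T_TOR Pool.Agent.T2H19.HD.T_SIG
  refine ⟨C, hC, fun N hN a => ?_⟩
  obtain ⟨L, hL, hχ⟩ := h N hN a
  exact ⟨L, hL, fun χ hc => hχ χ hc, fun χ hc ha => Pool.Agent.T2H19.HD.Fin.phases (fun χ hc => hχ χ hc) χ hc ha⟩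

end Pool.Agent.Results.MP_ca4620_an.MultiplicativePhases
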